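/-
The direct product of two tunable frames need not be tunable: the inequality relation on the natural
numbers is tunable, its direct square is not.
-/
import Mathlib

set_option autoImplicit false

open Set

namespace Pool.Agent.Results.MP_b20271_lc.Staircase

universe u v

/-- A partition: non-empty, pairwise disjoint sets with union the whole set. -/
def IsPartition {W : Type u} (A : Set (Set W)) : Prop :=
  (∀ U ∈ A, U.Nonempty) ∧ (∀ U ∈ A, ∀ V ∈ A, U ≠ V → Disjoint U V) ∧ ⋃₀ A = univ

/-- `B` refines `A`: every member of `A` is a union of members of `B`. -/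
def Refines {W : Type u} (B A : Set (Set W)) : Prop := ∀ U ∈ A, ∃ S ⊆ B, U = ⋃₀ S

/-- The partition `A` is tuned in the frame `(W, R)`. -/
def Tuned {W : Type u} (R : W → W → Prop) (A : Set (Set W)) : Prop :=
  ∀ U ∈ A, ∀ V ∈ A, (∃ x ∈ U, ∃ y ∈ V, R x y) → ∀ x ∈ U, ∃ y ∈ V, R x y

/-- The frame `(W, R)` is tunable: every finite partition has a finite tuned refinement. -/
def Tunable {W : Type u} (R : W → W → Prop) : Prop :=
  ∀ A : Set (Set W), IsPartition A → A.Finite →
    ∃ B : Set (Set W), IsPartition B ∧ B.Finite ∧ Refines B A ∧ Tuned R B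

/-- The relation of the direct product of two frames. -/
def prodRel {W₁ : Type u} {W₂ : Type v} (R₁ : W₁ → W₁ → Prop) (R₂ : W₂ → W₂ → Prop)
    (x y : W₁ × W₂) : Prop := R₁ x.1 y.1 ∧ R₂ x.2 y.2

theorem block_eq {W : Type u} {A : Set (Set W)} (hA : IsPartition A) {U V : Set W} (hU : U ∈ A)
    (hV : V ∈ A) {x : W} (hxU : x ∈ U) (hxV : x ∈ V) : U = V := by
  by_contra h
  exact Set.disjoint_left.1 (hA.2.1 U hU V hV h) hxU hxV

theorem tunable_ne (W : Type u) : Tunable (fun x y : W => x ≠ y) := by
  intro A hA hfin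
  refine ⟨A, hA, hfin, fun U hU => ⟨{U}, singleton_subset_iff.2 hU, (sUnion_singleton U).symm⟩, ?_⟩
  rintro U hU V hV ⟨x₀, hx₀, y₀, hy₀, hne⟩ x hx
  by_cases h : x = y₀
  · subst h
    have h1 := block_eq hA hU hV hx hy₀
    subst h1
    exact ⟨x₀, hx₀, fun h => hne h.symm⟩
  · exact ⟨y₀, hy₀, h⟩

/-- the staircase -/
def p (k : ℕ) : ℕ × ℕ := (k / 2, (k + 1) / 2)

theorem p_inj {j k : ℕ} (h : p j = p k) : j = k := by
  unfold p at h
  rw [Prod.mk.injEq] at h
  omega

/-- the relation of the direct square -/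
abbrev R : ℕ × ℕ → ℕ × ℕ → Prop := prodRel (fun x y : ℕ => x ≠ y) (fun x y : ℕ => x ≠ y)

theorem near {j k : ℕ} (h : ¬ R (p j) (p k)) : j ≤ k + 1 ∧ k ≤ j + 1 := by
  have h' : ¬ (j / 2 ≠ k / 2 ∧ (j + 1) / 2 ≠ (k + 1) / 2) := h
  omega

theorem not_R (k : ℕ) : ¬ R (p (k + 1)) (p k) := by
  have h : ¬ ((k + 1) / 2 ≠ k / 2 ∧ (k + 1 + 1) / 2 ≠ (k + 1) / 2) := by omega
  exact h

theorem not_tunable : ¬ Tunable R := by
  intro h
  have hA : IsPartition ({{p 0}, range p \ {p 0}, (range p)ᶜ} : Set (Set (ℕ × ℕ))) := by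
    refine ⟨?_, ?_, ?_⟩
    · rintro U (rfl | rfl | rfl)
      · exact singleton_nonempty _
      · exact ⟨p 1, ⟨1, rfl⟩, by simp [p]⟩
      · refine ⟨(5, 0), ?_⟩
        rintro ⟨k, hk⟩
        unfold p at hk
        rw [Prod.mk.injEq] at hk
        omega
    · have h1 : Disjoint ({p 0} : Set (ℕ × ℕ)) (range p \ {p 0}) := disjoint_sdiff_right
      have h2 : Disjoint ({p 0} : Set (ℕ × ℕ)) (range p)ᶜ := by
        rw [Set.disjoint_singleton_left, notMem_compl_iff]
        exact ⟨0, rfl⟩
      have h3 : Disjoint (range p \ {p 0}) (range p)ᶜ :=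
        disjoint_compl_right.mono_left sdiff_subset
      rintro U (rfl | rfl | rfl) V (rfl | rfl | rfl) hne
      · exact absurd rfl hne
      · exact h1
      · exact h2
      · exact h1.symm
      · exact absurd rfl hne
      · exact h3
      · exact h2.symm
      · exact h3.symm
      · exact absurd rfl hne
    · rw [eq_univ_iff_forall]
      intro x
      by_cases hx : x ∈ range p
      · by_cases hx0 : x = p 0
        · exact ⟨{p 0}, Or.inl rfl, hx0⟩
        · exact ⟨range p \ {p 0}, Or.inr (Or.inl rfl), hx, hx0⟩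
      · exact ⟨(range p)ᶜ, Or.inr (Or.inr rfl), hx⟩
  obtain ⟨B, hB, hfin, href, htuned⟩ := h _ hA (by simp)
  have hblock : ∀ x, ∃ U ∈ B, x ∈ U := by
    intro x
    have : x ∈ ⋃₀ B := by rw [hB.2.2]; exact mem_univ x
    exact this
  -- a block that meets a member of the coarse partition is contained in it
  have hsub : ∀ U ∈ B, ∀ V ∈ ({{p 0}, range p \ {p 0}, (range p)ᶜ} : Set (Set (ℕ × ℕ))), ∀ x ∈ U,
      x ∈ V → U ⊆ V := by
    intro U hU V hV x hxU hxV
    obtain ⟨S, hS, rfl⟩ := href V hV
    obtain ⟨C, hC, hxC⟩ := hxV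
    rw [block_eq hB hU (hS hC) hxU hxC]
    exact subset_sUnion_of_mem hC
  have key : ∀ k, ∀ j ≤ k, ({p j} : Set (ℕ × ℕ)) ∈ B := by
    intro k
    induction k with
    | zero =>
      intro j hj
      have hj0 : j = 0 := by omega
      subst hj0
      obtain ⟨U, hU, hx⟩ := hblock (p 0)
      have h1 := hsub U hU {p 0} (Or.inl rfl) (p 0) hx rfl
      have h2 : U = {p 0} := Subset.antisymm h1 (singleton_subset_iff.2 hx)
      rw [← h2]
      exact hU
    | succ k ih =>
      intro j hj
      rcases Nat.lt_or_ge j (k + 1) with hlt | hge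
      · exact ih j (by omega)
      · have hjk : j = k + 1 := by omega
        subst hjk
        obtain ⟨U, hU, hx⟩ := hblock (p (k + 1))
        have h1 := hsub U hU (range p \ {p 0}) (Or.inr (Or.inl rfl)) (p (k + 1)) hx
          ⟨⟨k + 1, rfl⟩, fun h => by have := p_inj h; omega⟩
        have h2 : U ⊆ {p (k + 1)} := by
          intro y hy
          obtain ⟨⟨i, rfl⟩, -⟩ := h1 hy
          have h3 : ¬ R (p i) (p k) := by
            intro h4
            obtain ⟨z, hz, h5⟩ := htuned U hU {p k} (ih k le_rfl) ⟨p i, hy, p k, rfl, h4⟩ _ hx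
            rw [mem_singleton_iff] at hz
            rw [hz] at h5
            exact not_R k h5
          have h6 := near h3
          have h7 : ∀ i ≤ k, p i ∉ U := by
            intro i hi hiU
            have h8 := block_eq hB hU (ih i hi) hiU rfl
            rw [h8] at hx
            have h9 := p_inj hx
            omega
          rcases Nat.lt_or_ge k i with h8 | h8
          · have h9 : i = k + 1 := by omega
            rw [h9]
            rfl
          · exact absurd hy (h7 i h8)
        rw [← Subset.antisymm h2 (singleton_subset_iff.2 hx)]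
        exact hU
  have hinj : Function.Injective fun k => ({p k} : Set (ℕ × ℕ)) := by
    intro j k h
    exact p_inj (singleton_injective h)
  exact (infinite_range_of_injective hinj) (hfin.subset (by
    rintro _ ⟨k, rfl⟩
    exact key k k le_rfl))

/-- **Main theorem.** There are two tunable frames whose direct product is not tunable. -/
theorem result : ∃ (W₁ W₂ : Type) (R₁ : W₁ → W₁ → Prop) (R₂ : W₂ → W₂ → Prop),
    Tunable R₁ ∧ Tunable R₂ ∧ ¬ Tunable (prodRel R₁ R₂) :=
  ⟨ℕ, ℕ, _, _, tunable_ne ℕ, tunable_ne ℕ, not_tunable⟩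

end Pool.Agent.Results.MP_b20271_lc.Staircase
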